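import Mathlib
import Pool.Agent.H15.XI3

set_option autoImplicit false

namespace Pool.Agent.Results.MP_c54d0a_an.Nonreal

open Pool.Agent.H15.XI

theorem result : ∃ a : ℝ, 0 < a ∧ ∃ z : ℂ, F a z = 0 ∧ z.im ≠ 0 := by
  obtain ⟨a, ha, z, h1, h2⟩ := Pool.Agent.H15.XI.main
  exact ⟨a, by linarith, z, h1, by linarith⟩

end Pool.Agent.Results.MP_c54d0a_an.Nonreal
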